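import Mathlib

/-!
# Project GC (helper27), job (10): the power series of `y` in a parameter, core (Mathlib only)
-/

set_option autoImplicit false
set_option linter.all false

open Finset NumberField

namespace Pool.Agent.J4H42.GC

/-- the coefficients of the solution of `g + g ^ 2 = w` -/
noncomputable def gs {K : Type} [Field K] (w : ℕ → K) (n : ℕ) : K :=
  w n - ∑ i ∈ (range n).attach, if h : 0 < i.1 then gs w i.1 * gs w (n - i.1) else 0
termination_by n
decreasing_by
  · exact mem_range.1 i.2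
  · have := mem_range.1 i.2
    omega

theorem gs_eq {K : Type} [Field K] (w : ℕ → K) (n : ℕ) :
    gs w n = w n - ∑ i ∈ (range n).filter (fun i => 0 < i), gs w i * gs w (n - i) := by
  rw [gs]
  congr 1
  rw [sum_filter, ← sum_attach (range n)]
  refine sum_congr rfl fun i _ => ?_
  by_cases h : 0 < i.1
  · rw [dif_pos h, if_pos h]
  · rw [dif_neg h, if_neg h]

theorem gs_zero {K : Type} [Field K] (w : ℕ → K) : gs w 0 = w 0 := by
  rw [gs_eq]
  simp

/-- the square -/
theorem gs_sq {K : Type} [Field K] (W : PowerSeries K) (hW : PowerSeries.coeff 0 W = 0) :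
    PowerSeries.mk (gs fun n => PowerSeries.coeff n W) +
      PowerSeries.mk (gs fun n => PowerSeries.coeff n W) ^ 2 = W := by
  obtain ⟨g, hg⟩ : ∃ g : ℕ → K, g = gs fun n => PowerSeries.coeff n W := ⟨_, rfl⟩
  have g0 : g 0 = 0 := by rw [hg, gs_zero]; exact hW
  have hgn : ∀ n, g n = PowerSeries.coeff n W -
      ∑ i ∈ (range n).filter (fun i => 0 < i), g i * g (n - i) := by
    intro n
    rw [hg]
    exact gs_eq _ n
  rw [← hg]
  ext n
  rw [map_add, sq, PowerSeries.coeff_mul, PowerSeries.coeff_mk]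
  simp only [PowerSeries.coeff_mk]
  rw [Finset.Nat.sum_antidiagonal_eq_sum_range_succ (fun i j => g i * g j) n, sum_range_succ,
    Nat.sub_self, g0, mul_zero, add_zero]
  have h1 : ∑ i ∈ range n, g i * g (n - i) =
      ∑ i ∈ (range n).filter (fun i => 0 < i), g i * g (n - i) := by
    rw [sum_filter]
    refine sum_congr rfl fun i _ => ?_
    by_cases h : 0 < i
    · rw [if_pos h]
    · rw [if_neg h, show i = 0 by omega, g0, zero_mul]
  rw [h1, hgn n]
  ring

/-- nonarchimedean bound -/
theorem gs_na {K : Type} [Field K] (w : ℕ → K) (v : K → ℝ) (v0 : v 0 = 0) (vn : ∀ x, 0 ≤ v x)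
    (vm : ∀ x y, v (x * y) = v x * v y) (va : ∀ x y, v (x + y) ≤ max (v x) (v y))
    (vneg : ∀ x, v (-x) = v x) (M : ℝ) (hM : 1 ≤ M) (hw : ∀ n, v (w n) ≤ M ^ (2 * n)) :
    ∀ n, v (gs w n) ≤ M ^ (2 * n) := by
  intro n
  induction n using Nat.strong_induction_on with
  | _ n ih =>
    have hsum : ∀ s : Finset ℕ, (∀ i ∈ s, v (gs w i * gs w (n - i)) ≤ M ^ (2 * n)) →
        v (∑ i ∈ s, gs w i * gs w (n - i)) ≤ M ^ (2 * n) := by
      intro s
      classical
      induction s using Finset.induction_on with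
      | empty =>
        intro _
        rw [sum_empty, v0]
        positivity
      | insert a s ha ih2 =>
        intro h
        rw [sum_insert ha]
        exact (va _ _).trans (max_le (h a (mem_insert_self _ _))
          (ih2 fun i hi => h i (mem_insert_of_mem hi)))
    rw [gs_eq, sub_eq_add_neg]
    refine (va _ _).trans (max_le (hw n) ?_)
    rw [vneg]
    apply hsum
    intro i hi
    rw [mem_filter, mem_range] at hi
    rw [vm]
    calc v (gs w i) * v (gs w (n - i)) ≤ M ^ (2 * i) * M ^ (2 * (n - i)) :=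
          mul_le_mul (ih i hi.1) (ih _ (by omega)) (vn _) (by positivity)
      _ = M ^ (2 * n) := by
          rw [← pow_add]
          congr 1
          omega

/-- archimedean bound -/
theorem gs_ar {K : Type} [Field K] (w : ℕ → K) (v : K → ℝ) (vn : ∀ x, 0 ≤ v x) (v0 : v 0 = 0)
    (vm : ∀ x y, v (x * y) = v x * v y) (va : ∀ x y, v (x + y) ≤ v x + v y)
    (vneg : ∀ x, v (-x) = v x) (ρ : ℝ) (hρ : 0 ≤ ρ) (hw0 : w 0 = 0)
    (hw : ∀ N, ∑ n ∈ range N, v (w n) * ρ ^ n ≤ 1 / 4) :
    ∀ N, ∑ n ∈ range N, v (gs w n) * ρ ^ n ≤ 1 / 2 := by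
  obtain ⟨a, ha⟩ : ∃ a : ℕ → ℝ, ∀ n, a n = v (gs w n) * ρ ^ n := ⟨fun n => _, fun _ => rfl⟩
  have a0 : ∀ n, 0 ≤ a n := fun n => by
    rw [ha]
    exact mul_nonneg (vn _) (by positivity)
  have hvs : ∀ (s : Finset ℕ) (f : ℕ → K), v (∑ i ∈ s, f i) ≤ ∑ i ∈ s, v (f i) := by
    intro s f
    classical
    induction s using Finset.induction_on with
    | empty => rw [sum_empty, sum_empty, v0]
    | insert b s hb ih =>
      rw [sum_insert hb, sum_insert hb]
      exact (va _ _).trans (by linarith)
  have hstep : ∀ n, a n ≤ v (w n) * ρ ^ n +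
      ∑ i ∈ (range n).filter (fun i => 0 < i), a i * a (n - i) := by
    intro n
    have h1 : v (gs w n) ≤ v (w n) + ∑ i ∈ (range n).filter (fun i => 0 < i),
        v (gs w i) * v (gs w (n - i)) := by
      rw [gs_eq, sub_eq_add_neg]
      refine (va _ _).trans ?_
      rw [vneg]
      have h2 := hvs ((range n).filter (fun i => 0 < i)) (fun i => gs w i * gs w (n - i))
      simp only [vm] at h2
      linarith
    rw [ha]
    refine (mul_le_mul_of_nonneg_right h1 (by positivity)).trans (le_of_eq ?_)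
    rw [add_mul, sum_mul]
    congr 1
    refine sum_congr rfl fun i hi => ?_
    rw [mem_filter, mem_range] at hi
    rw [ha, ha]
    have e : ρ ^ n = ρ ^ i * ρ ^ (n - i) := by
      rw [← pow_add]
      congr 1
      omega
    rw [e]
    ring
  have hG : ∀ N, ∑ n ∈ range N, a n ≤ 1 / 2 := by
    intro N
    induction N with
    | zero => simp
    | succ N ih =>
      have h1 : ∑ n ∈ range (N + 1), a n ≤ ∑ n ∈ range (N + 1), v (w n) * ρ ^ n +
          ∑ n ∈ range (N + 1), ∑ i ∈ (range n).filter (fun i => 0 < i), a i * a (n - i) := by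
        rw [← sum_add_distrib]
        exact sum_le_sum fun n _ => hstep n
      have h2 : ∑ n ∈ range (N + 1), ∑ i ∈ (range n).filter (fun i => 0 < i), a i * a (n - i) =
          ∑ i ∈ (range N).filter (fun i => 0 < i), ∑ n ∈ Ico (i + 1) (N + 1), a i * a (n - i) := by
        apply sum_comm'
        intro x y
        simp only [mem_range, mem_filter, mem_Ico]
        omega
      have h3 : ∀ i ∈ (range N).filter (fun i => 0 < i),
          ∑ n ∈ Ico (i + 1) (N + 1), a i * a (n - i) ≤ a i * ∑ j ∈ range N, a j := by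
        intro i hi
        rw [mem_filter, mem_range] at hi
        rw [← mul_sum]
        refine mul_le_mul_of_nonneg_left ?_ (a0 i)
        have h4 : ∑ n ∈ Ico (i + 1) (N + 1), a (n - i) =
            ∑ j ∈ (Ico (i + 1) (N + 1)).image (fun n => n - i), a j := by
          rw [sum_image]
          intro x hx y hy hxy
          simp only [coe_Ico, Set.mem_Ico] at hx hy hxy
          omega
        rw [h4]
        apply sum_le_sum_of_subset_of_nonneg
        · intro j hj
          rw [mem_image] at hj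
          obtain ⟨n, hn, rfl⟩ := hj
          rw [mem_Ico] at hn
          rw [mem_range]
          omega
        · intro j _ _
          exact a0 j
      have h5 : ∑ i ∈ (range N).filter (fun i => 0 < i), a i * ∑ j ∈ range N, a j ≤
          (∑ i ∈ range N, a i) * ∑ j ∈ range N, a j := by
        rw [← sum_mul]
        refine mul_le_mul_of_nonneg_right ?_ (sum_nonneg fun j _ => a0 j)
        exact sum_le_sum_of_subset_of_nonneg (filter_subset _ _) fun j _ _ => a0 j
      have h6 : (∑ i ∈ range N, a i) * ∑ j ∈ range N, a j ≤ 1 / 2 * (1 / 2) := by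
        have h7 : 0 ≤ ∑ i ∈ range N, a i := sum_nonneg fun j _ => a0 j
        exact mul_le_mul ih ih h7 (by norm_num)
      rw [h2] at h1
      have h8 := sum_le_sum h3
      have h9 := hw (N + 1)
      linarith
  intro N
  have := hG N
  simpa only [ha] using this

/-- **SQ**, verbatim. -/
theorem sq_core (K : Type) [Field K] [NumberField K] (a b : 𝓞 K) : ∃ C : ℝ, 1 ≤ C ∧
  ∀ x h : K, h ^ 2 = x ^ 3 + (a : K) * x + (b : K) → h ≠ 0 →
    ∃ E : PowerSeries K, PowerSeries.constantCoeff E = 1 ∧
      (PowerSeries.C h * E) ^ 2 =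
        (PowerSeries.C x + PowerSeries.C (4 * h ^ 2) * PowerSeries.X) ^ 3 +
        PowerSeries.C (a : K) * (PowerSeries.C x + PowerSeries.C (4 * h ^ 2) * PowerSeries.X) +
        PowerSeries.C (b : K) ∧
      (∀ (v : FinitePlace K) (n : ℕ), v (PowerSeries.coeff n E) ≤ (max 1 (v x)) ^ (2 * n)) ∧
      ∀ (w : InfinitePlace K) (N : ℕ),
        ∑ n ∈ Finset.range N, w (PowerSeries.coeff n E) * ((C * (max 1 (w x)) ^ 2)⁻¹) ^ n ≤ 2 := by
  obtain ⟨A, hA⟩ : ∃ A : ℝ, A = ∑ w : InfinitePlace K, (w (a : K) + w (b : K)) := ⟨_, rfl⟩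
  have wnn : ∀ (w : InfinitePlace K) (x : K), 0 ≤ w x := fun w x => apply_nonneg w x
  have hAa : ∀ w : InfinitePlace K, w (a : K) + w (b : K) ≤ A := by
    intro w
    rw [hA]
    exact single_le_sum (f := fun w : InfinitePlace K => w (a : K) + w (b : K))
      (fun w _ => add_nonneg (wnn w _) (wnn w _)) (mem_univ w)
  have hA0 : 0 ≤ A := by
    rw [hA]
    exact sum_nonneg fun w _ => add_nonneg (wnn w _) (wnn w _)
  obtain ⟨B, hB⟩ : ∃ B : ℝ, B = 1 + A := ⟨_, rfl⟩
  have hB1 : 1 ≤ B := by rw [hB]; linarith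
  refine ⟨24 * B, by linarith, ?_⟩
  intro x h hxh hh
  obtain ⟨W, hW⟩ : ∃ W : PowerSeries K, W = PowerSeries.mk (fun n => if n = 1 then 3 * x ^ 2 + (a : K)
    else if n = 2 then 12 * x * h ^ 2 else if n = 3 then 16 * h ^ 4 else 0) := ⟨_, rfl⟩
  have hW' : W = PowerSeries.C (3 * x ^ 2 + (a : K)) * PowerSeries.X +
      PowerSeries.C (12 * x * h ^ 2) * PowerSeries.X ^ 2 +
      PowerSeries.C (16 * h ^ 4) * PowerSeries.X ^ 3 := by
    rw [hW]
    ext n
    rw [PowerSeries.coeff_mk, map_add, map_add, PowerSeries.coeff_C_mul, PowerSeries.coeff_C_mul,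
      PowerSeries.coeff_C_mul, PowerSeries.coeff_X, PowerSeries.coeff_X_pow,
      PowerSeries.coeff_X_pow]
    by_cases h1 : n = 1
    · subst h1; simp
    · by_cases h2 : n = 2
      · subst h2; simp
      · by_cases h3 : n = 3
        · subst h3; simp
        · simp [h1, h2, h3]
  have hWn : ∀ n, PowerSeries.coeff n W = if n = 1 then 3 * x ^ 2 + (a : K)
    else if n = 2 then 12 * x * h ^ 2 else if n = 3 then 16 * h ^ 4 else 0 := by
    intro n
    rw [hW, PowerSeries.coeff_mk]
  have hW0 : PowerSeries.coeff 0 W = 0 := by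
    rw [hWn]
    simp
  obtain ⟨g, hg⟩ : ∃ g : ℕ → K, g = gs fun n => PowerSeries.coeff n W := ⟨_, rfl⟩
  have hsq := gs_sq W hW0
  rw [← hg] at hsq
  have hg0 : g 0 = 0 := by
    rw [hg, gs_zero]
    exact hW0
  have hEn : ∀ n, PowerSeries.coeff n (1 + 2 * PowerSeries.mk g) =
      (if n = 0 then 1 else 0) + 2 * g n := by
    intro n
    rw [map_add, PowerSeries.coeff_one, show (2 : PowerSeries K) = PowerSeries.C (2 : K) by
      rw [map_ofNat], PowerSeries.coeff_C_mul, PowerSeries.coeff_mk]
  refine ⟨1 + 2 * PowerSeries.mk g, ?_, ?_, ?_, ?_⟩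
  · rw [← PowerSeries.coeff_zero_eq_constantCoeff_apply, hEn, hg0]
    simp
  · have h1 : (PowerSeries.C h : PowerSeries K) ^ 2 = PowerSeries.C x ^ 3 +
        PowerSeries.C (a : K) * PowerSeries.C x + PowerSeries.C (b : K) := by
      rw [← map_pow, ← map_pow, ← map_mul, ← map_add, ← map_add, hxh]
    rw [hW'] at hsq
    simp only [map_mul, map_pow, map_add, map_ofNat] at hsq ⊢
    linear_combination (4 * PowerSeries.C h ^ 2) * hsq + h1
  · intro v n
    set M := max 1 (v x) with hM
    have hM1 : 1 ≤ M := le_max_left _ _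
    have hxM : v x ≤ M := le_max_right _ _
    have vint : ∀ y : 𝓞 K, v (y : K) ≤ 1 := by
      intro y
      rw [← FinitePlace.norm_embedding_eq]
      exact FinitePlace.norm_le_one _ _ y
    have vnat : ∀ m : ℕ, v (m : K) ≤ 1 := by
      intro m
      have := vint (m : 𝓞 K)
      simpa using this
    have va : ∀ y z : K, v (y + z) ≤ max (v y) (v z) := fun y z => FinitePlace.add_le v y z
    have vnn : ∀ y : K, 0 ≤ v y := fun y => apply_nonneg v y
    have hvh : v h ^ 2 ≤ M ^ 3 := by
      rw [← map_pow, hxh]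
      refine (va _ _).trans (max_le ((va _ _).trans (max_le ?_ ?_)) ?_)
      · rw [map_pow]
        exact pow_le_pow_left₀ (vnn _) hxM 3
      · rw [map_mul]
        calc v (a : K) * v x ≤ 1 * M := mul_le_mul (vint a) hxM (vnn _) zero_le_one
          _ = M ^ 1 := by ring
          _ ≤ M ^ 3 := pow_le_pow_right₀ hM1 (by norm_num)
      · exact (vint b).trans (one_le_pow₀ hM1)
    have hw : ∀ n, v (PowerSeries.coeff n W) ≤ M ^ (2 * n) := by
      intro n
      rw [hWn]
      split_ifs with h1 h2 h3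
      · subst h1
        refine (va _ _).trans (max_le ?_ ?_)
        · rw [map_mul, map_pow]
          calc v 3 * v x ^ 2 ≤ 1 * M ^ 2 :=
                mul_le_mul (by simpa using vnat 3) (pow_le_pow_left₀ (vnn _) hxM 2)
                  (by positivity) zero_le_one
            _ = M ^ (2 * 1) := by ring
        · exact (vint a).trans (one_le_pow₀ hM1)
      · subst h2
        rw [map_mul, map_mul, map_pow]
        calc v 12 * v x * v h ^ 2 ≤ 1 * M * M ^ 3 :=
              mul_le_mul (mul_le_mul (by simpa using vnat 12) hxM (vnn _) zero_le_one) hvh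
                (by positivity) (by positivity)
          _ = M ^ (2 * 2) := by ring
      · subst h3
        rw [map_mul, map_pow]
        calc v 16 * v h ^ 4 = v 16 * (v h ^ 2) ^ 2 := by ring
          _ ≤ 1 * (M ^ 3) ^ 2 :=
              mul_le_mul (by simpa using vnat 16) (pow_le_pow_left₀ (by positivity) hvh 2)
                (by positivity) zero_le_one
          _ = M ^ (2 * 3) := by ring
      · rw [map_zero]
        positivity
    have hgn := gs_na (fun n => PowerSeries.coeff n W) v (map_zero v) vnn (map_mul v) va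
      (fun y => map_neg_eq_map v y) M hM1 hw
    rw [← hg] at hgn
    rw [hEn]
    refine (va _ _).trans (max_le ?_ ?_)
    · split_ifs
      · rw [map_one]
        exact one_le_pow₀ hM1
      · rw [map_zero]
        positivity
    · rw [map_mul]
      calc v 2 * v (g n) ≤ 1 * M ^ (2 * n) :=
            mul_le_mul (by simpa using vnat 2) (hgn n) (vnn _) zero_le_one
        _ = M ^ (2 * n) := one_mul _
  · intro w N
    set M := max 1 (w x) with hM
    have hM1 : 1 ≤ M := le_max_left _ _
    have hM0 : 0 < M := by linarith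
    have hxM : w x ≤ M := le_max_right _ _
    have hnorm : ∀ y : K, w y = ‖w.embedding y‖ := fun y => (InfinitePlace.norm_embedding_eq w y).symm
    have wadd : ∀ y z : K, w (y + z) ≤ w y + w z := by
      intro y z
      rw [hnorm, hnorm, hnorm, map_add]
      exact norm_add_le _ _
    have wneg : ∀ y : K, w (-y) = w y := by
      intro y
      rw [hnorm, hnorm, map_neg, norm_neg]
    have wnat : ∀ m : ℕ, w (m : K) = m := by
      intro m
      rw [hnorm, map_natCast, Complex.norm_natCast]
    have hAw := hAa w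
    have haB : w (a : K) ≤ B := by
      have := wnn w (b : K)
      rw [hB]
      linarith
    have hbB : 1 + w (a : K) + w (b : K) ≤ B := by
      rw [hB]
      linarith
    have hvh : w h ^ 2 ≤ B * M ^ 3 := by
      rw [← map_pow, hxh]
      refine (wadd _ _).trans ?_
      have h1 := wadd (x ^ 3) ((a : K) * x)
      rw [map_pow, map_mul] at h1
      have h2 : w x ^ 3 ≤ M ^ 3 := pow_le_pow_left₀ (wnn w _) hxM 3
      have h3 : w (a : K) * w x ≤ w (a : K) * M ^ 3 := by
        refine mul_le_mul_of_nonneg_left ?_ (wnn w _)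
        calc w x ≤ M ^ 1 := by rw [pow_one]; exact hxM
          _ ≤ M ^ 3 := pow_le_pow_right₀ hM1 (by norm_num)
      have h4 : w (b : K) ≤ w (b : K) * M ^ 3 :=
        le_mul_of_one_le_right (wnn w _) (one_le_pow₀ hM1)
      calc w (x ^ 3 + (a : K) * x) + w (b : K)
          ≤ (1 + w (a : K) + w (b : K)) * M ^ 3 := by linarith
        _ ≤ B * M ^ 3 := by gcongr
    obtain ⟨ρ, hρ⟩ : ∃ ρ : ℝ, ρ = (24 * B * M ^ 2)⁻¹ := ⟨_, rfl⟩
    have hρ0 : 0 < ρ := by rw [hρ]; positivity
    have hρM : ρ * M ^ 2 = (24 * B)⁻¹ := by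
      rw [hρ]
      field_simp
    rw [← hρ]
    have t1 : w (3 * x ^ 2 + (a : K)) * ρ ≤ 4 / 24 := by
      have h1 : w (3 * x ^ 2 + (a : K)) ≤ 4 * B * M ^ 2 := by
        refine (wadd _ _).trans ?_
        rw [map_mul, map_pow, show w 3 = 3 by simpa using wnat 3]
        have h2 : w x ^ 2 ≤ M ^ 2 := pow_le_pow_left₀ (wnn w _) hxM 2
        have h3 : M ^ 2 ≤ B * M ^ 2 := le_mul_of_one_le_left (by positivity) hB1
        have h4 : w (a : K) ≤ B * M ^ 2 := haB.trans (le_mul_of_one_le_right (by linarith)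
          (one_le_pow₀ hM1))
        linarith
      calc w (3 * x ^ 2 + (a : K)) * ρ ≤ 4 * B * M ^ 2 * ρ := by gcongr
        _ = 4 * B * (ρ * M ^ 2) := by ring
        _ = 4 / 24 := by rw [hρM]; field_simp
    have t2 : w (12 * x * h ^ 2) * ρ ^ 2 ≤ 12 / (24 * 24) := by
      have h1 : w (12 * x * h ^ 2) ≤ 12 * B * M ^ 4 := by
        rw [map_mul, map_mul, map_pow, show w 12 = 12 by simpa using wnat 12]
        calc 12 * w x * w h ^ 2 ≤ 12 * M * (B * M ^ 3) := by
              apply mul_le_mul _ hvh (by positivity) (by positivity)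
              gcongr
          _ = 12 * B * M ^ 4 := by ring
      calc w (12 * x * h ^ 2) * ρ ^ 2 ≤ 12 * B * M ^ 4 * ρ ^ 2 := by gcongr
        _ = 12 * B * (ρ * M ^ 2) ^ 2 := by ring
        _ = 12 / (24 * 24) / B := by rw [hρM]; field_simp
        _ ≤ 12 / (24 * 24) := div_le_self (by norm_num) hB1
    have t3 : w (16 * h ^ 4) * ρ ^ 3 ≤ 16 / (24 * 24 * 24) := by
      have h1 : w (16 * h ^ 4) ≤ 16 * B ^ 2 * M ^ 6 := by
        rw [map_mul, map_pow, show w 16 = 16 by simpa using wnat 16]
        calc 16 * w h ^ 4 = 16 * (w h ^ 2) ^ 2 := by ring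
          _ ≤ 16 * (B * M ^ 3) ^ 2 := by gcongr
          _ = 16 * B ^ 2 * M ^ 6 := by ring
      calc w (16 * h ^ 4) * ρ ^ 3 ≤ 16 * B ^ 2 * M ^ 6 * ρ ^ 3 := by gcongr
        _ = 16 * B ^ 2 * (ρ * M ^ 2) ^ 3 := by ring
        _ = 16 / (24 * 24 * 24) / B := by rw [hρM]; field_simp
        _ ≤ 16 / (24 * 24 * 24) := div_le_self (by norm_num) hB1
    have hterm : ∀ n, 0 ≤ w (PowerSeries.coeff n W) * ρ ^ n :=
      fun n => mul_nonneg (wnn w _) (by positivity)
    have hw : ∀ N, ∑ n ∈ range N, w (PowerSeries.coeff n W) * ρ ^ n ≤ 1 / 4 := by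
      intro N
      have h1 : ∑ n ∈ range N, w (PowerSeries.coeff n W) * ρ ^ n ≤
          ∑ n ∈ range (N + 4), w (PowerSeries.coeff n W) * ρ ^ n :=
        sum_le_sum_of_subset_of_nonneg (range_subset_range.2 (by omega)) fun n _ _ => hterm n
      have h2 : ∑ n ∈ range (N + 4), w (PowerSeries.coeff n W) * ρ ^ n =
          ∑ n ∈ range 4, w (PowerSeries.coeff n W) * ρ ^ n := by
        symm
        apply sum_subset (range_subset_range.2 (by omega))
        intro n _ hn
        rw [mem_range, not_lt] at hn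
        rw [hWn, if_neg (by omega), if_neg (by omega), if_neg (by omega), map_zero, zero_mul]
      rw [h2] at h1
      refine h1.trans ?_
      rw [sum_range_succ, sum_range_succ, sum_range_succ, sum_range_succ, sum_range_zero, hWn, hWn,
        hWn, hWn]
      simp only [reduceIte, OfNat.ofNat_ne_one, OfNat.zero_ne_ofNat, zero_ne_one, map_zero,
        zero_mul, zero_add, pow_one, Nat.reduceEqDiff]
      linarith
    have hgn := gs_ar (fun n => PowerSeries.coeff n W) w (wnn w) (map_zero w) (map_mul w) wadd wneg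
      ρ hρ0.le hW0 hw N
    rw [← hg] at hgn
    have h1 : ∀ n, w (PowerSeries.coeff n (1 + 2 * PowerSeries.mk g)) * ρ ^ n ≤
        (if n = 0 then 1 else 0) + 2 * (w (g n) * ρ ^ n) := by
      intro n
      rw [hEn]
      have h2 := wadd (if n = 0 then 1 else 0) (2 * g n)
      rw [map_mul, show w 2 = 2 by simpa using wnat 2] at h2
      by_cases h0 : n = 0
      · subst h0
        rw [hg0] at h2 ⊢
        simp
      · rw [if_neg h0] at h2 ⊢
        rw [if_neg h0]
        rw [map_zero, zero_add] at h2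
        have h3 : 0 ≤ ρ ^ n := by positivity
        rw [zero_add] at h2 ⊢
        calc w (2 * g n) * ρ ^ n ≤ 2 * w (g n) * ρ ^ n := by gcongr
          _ = 0 + 2 * (w (g n) * ρ ^ n) := by ring
    calc ∑ n ∈ range N, w (PowerSeries.coeff n (1 + 2 * PowerSeries.mk g)) * ρ ^ n
        ≤ ∑ n ∈ range N, (((if n = 0 then 1 else 0) : ℝ) + 2 * (w (g n) * ρ ^ n)) :=
          sum_le_sum fun n _ => h1 n
      _ = ∑ n ∈ range N, ((if n = 0 then 1 else 0) : ℝ) + 2 * ∑ n ∈ range N, w (g n) * ρ ^ n := by
          rw [sum_add_distrib, mul_sum]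
      _ ≤ 1 + 2 * (1 / 2) := by
          have h2 : ∑ n ∈ range N, ((if n = 0 then 1 else 0) : ℝ) ≤ 1 := by
            rw [sum_ite_eq']
            split_ifs <;> norm_num
          linarith
      _ = 2 := by norm_num

end Pool.Agent.J4H42.GC
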