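import Pool.Agent.J4H27.GC.Defs2
import Pool.Agent.J4H42.GC.Sq0

/-!
# Project GC (helper27), job (10) SQ
-/

set_option autoImplicit false

namespace Pool.Agent.J4H42.GC

/-- **SQ**. -/
theorem t_SQ : Pool.Agent.J4H27.GC.S_SQ := fun K _ _ a b => sq_core K a b

end Pool.Agent.J4H42.GC
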